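import Pool.Agent.T9h54.FF.Fin2
import Pool.Agent.T9h54.FF.Few2
import Pool.Agent.T9h73.FF.E1h

/-!
# MP_b6b996_nt: one fraction of each denominator is enough

`F_R(x) = ∑_{n ≤ R} μ(n) e(nx)`. Q1 asks for a bound `O(R^(1/2 + ε))` uniformly on the circle. We show that
information at ONE rational point of each denominator has global consequences.

* (A) Let `L(s, χ) = 0`, `Re s > 11/14`. For a positive proportion of the denominators `Q` (positive lower density)
  the sum `F_R(x)` is not `O(R^b)`, for any `b < Re s`, at EVERY rational number `x` with denominator `Q`.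
* (B) Hence: if `a ≥ 11/14` and for each `Q` in a set of upper density one there is one rational `x` with denominator
  `Q` such that the growth exponent of `F_R(x)` is at most `a` (no uniformity in `x`), then no Dirichlet L-function has
  a zero with real part `> a`.
* (C) In the whole range `a ≥ 1/2`: if for each large `Q` the growth exponent is at most `a` at all reduced fractions
  `j / Q` but at most `Q^κ` of them, `κ = 2(2a-1)/(3-2a)`, `κ < 1`, the same conclusion holds (`κ = 0` for `a = 1/2`,
  and `κ` tends to `1` as `a` tends to `5/6`).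
* (D) `F_R(x) = O_x(R^(1-δ))` with one `δ > 0` at one rational point of each denominator of a set of upper density
  one, power saving uniformly on the circle, and a zero-free half plane for all Dirichlet L-functions are equivalent.

(The bound `O(R^(3/4 + ε))` of Baker and Harman assumes the generalized Riemann hypothesis. Without hypotheses no
power saving is known, and no zero-free half plane.)

Method. Let `L(ρ, χ₀) = 0`, `Re ρ > 11/14`. A bound for the number of the zeros at the point `ρ` (Pólya-Vinogradov, a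
short mollifier, powers of Dirichlet polynomials and the large sieve) shows that the conductors `r` of the primitive
characters which vanish at `ρ` are so rare that `∑ 1/r` converges. So for many squarefree `m` all characters modulo
`M m` which vanish at `ρ` come from characters modulo `M`. The polar part at `ρ` of `∑ μ(n) e(nj/(qm)) n^(-s)` is then
`∑_χ χ(j) c_χ ∏_{P | m} h(χ(P), P)`, a sum over the characters modulo `q`, with
`h(z, P) = -(z⁻¹ + (P - 1) P^(-ρ)) / (1 - z P^(-ρ))`. If it vanished for some `j` for all `m` which are products of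
primes in prescribed classes modulo `q`, then, letting the primes tend to infinity one after the other, one would get
`∑_χ χ(j) c_χ = 0` for all `j`, so `c = 0`, which is false. So there is an `M` such that the polar part is not zero
for all `j`; this remains true for `M m`, `m` with large prime factors. A sieve argument gives positive density. For
(C) one needs a modulus with at most `Q^(1-κ-δ)` characters which vanish at `ρ`, and the uncertainty principle.

Pieces of the proof were formalised by helper85, helper73, helper89 (zeros at a point), helper69 (good primes,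
convergence), helper31 (choice of `P`), helper41 (chains), helper65 (uncertainty principle), helper22 (Gauss sums),
helper56 (partial fractions), helper51 (sieve), helper93 (asymptotics); plan, polar parts, chains, induction and assembly by
helper54.
-/

set_option autoImplicit false

open Filter

namespace Pool.Agent.Results.MP_b6b996_nt.FewFractions

/-- The Möbius exponential sum `F_R(x) = ∑_{n=1}^R μ(n) e^{2πinx}`. -/
noncomputable def F (R : ℕ) (x : ℝ) : ℂ :=
  ∑ n ∈ Finset.Icc 1 R, ((ArithmeticFunction.moebius n : ℤ) : ℂ) *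
    Complex.exp (2 * Real.pi * Complex.I * n * x)

/-- The growth exponent of `F_R(x)` at the point `x` is at most `a`. -/
def GrowthAt (a x : ℝ) : Prop := ∀ ε : ℝ, 0 < ε → ∃ C : ℝ, ∀ R : ℕ, 1 ≤ R →
  ‖F R x‖ ≤ C * (R : ℝ) ^ (a + ε)

/-- The bound `O(R^(1-δ))` at the point `x`. -/
def SavingAt (δ x : ℝ) : Prop := ∃ C : ℝ, ∀ R : ℕ, 1 ≤ R → ‖F R x‖ ≤ C * (R : ℝ) ^ (1 - δ)

/-- There is a power saving, uniformly on the circle. -/
def Uniform : Prop := ∃ δ : ℝ, 0 < δ ∧ ∃ C : ℝ, ∀ (R : ℕ) (x : ℝ), 1 ≤ R →
  ‖F R x‖ ≤ C * (R : ℝ) ^ (1 - δ)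

/-- No Dirichlet L-function has a zero with real part larger than `a`. -/
def ZeroFree (a : ℝ) : Prop := ∀ (q : ℕ) [NeZero q] (χ : DirichletCharacter ℂ q) (s : ℂ),
  a < s.re → s ≠ 1 → DirichletCharacter.LFunction χ s ≠ 0

/-- At every rational number with denominator `Q` the sum `F_R` is not `O(R^b)`, for any `b < β`. -/
def AllBad (β : ℝ) (Q : ℕ) : Prop := ∀ x : ℚ, x.den = Q → ∀ b : ℝ, b < β → ∀ C : ℝ,
  ∃ᶠ R : ℕ in atTop, C * (R : ℝ) ^ b < ‖F R x‖

/-- The set of the `Q ≥ 1` with `p Q` has upper density one. -/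
def Full (p : ℕ → Prop) : Prop := ∀ c : ℝ, c < 1 → ∃ᶠ N : ℕ in atTop,
  c * N ≤ (Set.ncard {Q : ℕ | 1 ≤ Q ∧ Q ≤ N ∧ p Q} : ℝ)

/-- **One fraction of each denominator is enough.** -/
theorem result :
    (∀ (q : ℕ) [NeZero q] (χ : DirichletCharacter ℂ q) (s : ℂ), 11 / 14 < s.re → s ≠ 1 →
      DirichletCharacter.LFunction χ s = 0 → ∃ c : ℝ, 0 < c ∧ ∀ᶠ N : ℕ in atTop,
        c * N ≤ (Set.ncard {Q : ℕ | 1 ≤ Q ∧ Q ≤ N ∧ AllBad s.re Q} : ℝ)) ∧
    (∀ a : ℝ, 11 / 14 ≤ a → (Full fun Q => ∃ x : ℚ, x.den = Q ∧ GrowthAt a x) → ZeroFree a) ∧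
    (∀ a κ : ℝ, 1 / 2 ≤ a → κ < 1 → κ ≤ 2 * (2 * a - 1) / (3 - 2 * a) →
      (∀ᶠ Q : ℕ in atTop, (Set.ncard {j : ℕ | 1 ≤ j ∧ j ≤ Q ∧ j.Coprime Q ∧
        ¬ GrowthAt a ((j : ℝ) / (Q : ℝ))} : ℝ) ≤ (Q : ℝ) ^ κ) → ZeroFree a) ∧
    List.TFAE [∃ δ : ℝ, 0 < δ ∧ Full fun Q => ∃ x : ℚ, x.den = Q ∧ SavingAt δ x, Uniform,
      ∃ a : ℝ, a < 1 ∧ ZeroFree a] :=
  ⟨fun _ _ χ s hs hs1 h0 => Pool.Agent.T9h54.FF.finA (by norm_num)
      (Pool.Agent.T9h54.FF.at11 Pool.Agent.T9h73.FF.e1h) χ s hs hs1 h0,
    fun _ ha h => Pool.Agent.T9h54.FF.finB (by norm_num)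
      (Pool.Agent.T9h54.FF.at11 Pool.Agent.T9h73.FF.e1h) ha h,
    fun _ _ ha hκ1 hκ h => Pool.Agent.T9h54.FF.finE ha hκ1 hκ h,
    Pool.Agent.T9h54.FF.finD⟩

end Pool.Agent.Results.MP_b6b996_nt.FewFractions
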