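import Pool.Agent.T9h54.FF.Arc
import Pool.Agent.T9h73.FF.E1h
import Pool.Agent.T9h53.LZ.M2

/-!
# MP_b6b996_nt: power saving in the Möbius exponential sum is a local and pointwise property

`F_R(x) = ∑_{n ≤ R} μ(n) e(nx)`. Q1 asks for a bound `O(R^(1/2 + ε))` uniformly on the circle. We show that
much weaker information, about single points `x` of an arbitrarily short arc and without any uniformity, has
global consequences:

* if the growth exponent of `F_R(x)` is at most `a` at every rational point `x` of an arc, however short, and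
  `a ≥ 2/3`, then no Dirichlet L-function has a zero with real part `> a`;
* the same if the growth exponent is at most `a` at `Q^κ` consecutive fractions `j / Q` (anywhere) for each large
  denominator `Q`, `1/2 < κ ≤ 1`, `a ≥ (27 - 10κ) / (30 - 4κ)`, `a ≥ 6 / (7 + 2κ)`: arcs of length `Q^(κ-1)`;
* for all `x` outside one meagre set the growth exponent of `F_R(x)` is at least the real part of every zero
  (with real part `> 2/3`) of every Dirichlet L-function, although it is `≤ 1/2` for almost all `x`;
* a power saving at each point of one arc (the exponent may depend on the point), a power saving uniformly on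
  the circle, and a zero-free half plane `Re s > a`, `a < 1`, for all Dirichlet L-functions are equivalent;
* zero-one law: either there is a uniform power saving on the circle, or there is no power saving at all at
  `x`, for all `x` outside a meagre set.

(The bound `O(R^(3/4 + ε))` of Baker and Harman assumes the generalized Riemann hypothesis. Without hypotheses
no power saving is known.)

Method. Let `L(ρ, χ₀) = 0` for a primitive character `χ₀` modulo `q`. By a zero density argument at the
point `ρ` (Pólya-Vinogradov, a short mollifier, powers of Dirichlet polynomials and the large sieve; here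
`Re ρ > 2/3` is used) there are arbitrarily large primes `P` such that at most `P^(1/2-δ)` characters modulo `Q = qP` vanish at `ρ`. For `j` prime to `Q`
the Dirichlet series `∑ μ(n) e(nj/Q) n^(-s)` is `φ(Q)⁻¹ ∑_χ χ(j) E_χ(s) / L(s, χ)` with entire functions
`E_χ`, and `E_χ(ρ) ≠ 0` for the lift `χ` of `χ₀`. If it is analytic at `ρ` for all `j / Q` in the arc, a
compactness argument gives a nontrivial linear relation between the few characters which vanish at `ρ`, on
all `j` in an interval of length `≫ Q`. This contradicts the inequality of Pólya and Vinogradov. The theorem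
of Baire gives the statements on points.

Pieces of the proof were formalised by helper85, helper73, helper89 (zeros at a point), helper65, helper31
(choice of `P`), helper75, helper41 (linear independence), helper51 (minor arcs), helper53 (major arcs), helper53 and helper51 (sums
with characters); plan, Dirichlet series, continuation and assembly by helper54.
-/

set_option autoImplicit false

open Filter

namespace Pool.Agent.Results.MP_b6b996_nt.LocalPowerSaving

/-- The Möbius exponential sum `F_R(x) = ∑_{n=1}^R μ(n) e^{2πinx}`. -/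
noncomputable def F (R : ℕ) (x : ℝ) : ℂ :=
  ∑ n ∈ Finset.Icc 1 R, ((ArithmeticFunction.moebius n : ℤ) : ℂ) *
    Complex.exp (2 * Real.pi * Complex.I * n * x)

/-- The growth exponent of `F_R(x)` at the point `x` is at most `a`. -/
def GrowthAt (a x : ℝ) : Prop := ∀ ε : ℝ, 0 < ε → ∃ C : ℝ, ∀ R : ℕ, 1 ≤ R →
  ‖F R x‖ ≤ C * (R : ℝ) ^ (a + ε)

/-- There is a power saving at the point `x`. -/
def Saving (x : ℝ) : Prop := ∃ δ : ℝ, 0 < δ ∧ ∃ C : ℝ, ∀ R : ℕ, 1 ≤ R →
  ‖F R x‖ ≤ C * (R : ℝ) ^ (1 - δ)

/-- There is a power saving, uniformly on the circle. -/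
def Uniform : Prop := ∃ δ : ℝ, 0 < δ ∧ ∃ C : ℝ, ∀ (R : ℕ) (x : ℝ), 1 ≤ R →
  ‖F R x‖ ≤ C * (R : ℝ) ^ (1 - δ)

/-- No Dirichlet L-function has a zero with real part larger than `a`. -/
def ZeroFree (a : ℝ) : Prop := ∀ (q : ℕ) [NeZero q] (χ : DirichletCharacter ℂ q) (s : ℂ),
  a < s.re → s ≠ 1 → DirichletCharacter.LFunction χ s ≠ 0

/-- **Power saving is a local property.** -/
theorem result :
    (∀ a : ℝ, 2 / 3 ≤ a → ∀ α β : ℝ, α < β →
      (∀ x : ℚ, α < x → (x : ℝ) < β → GrowthAt a x) → ZeroFree a) ∧
    (∀ κ a : ℝ, 1 / 2 < κ → κ ≤ 1 → (27 - 10 * κ) / (30 - 4 * κ) ≤ a → 6 / (7 + 2 * κ) ≤ a →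
      (∀ᶠ Q : ℕ in atTop, ∃ A : ℕ, ∀ j : ℕ, j.Coprime Q → A < j → (j : ℝ) ≤ A + (Q : ℝ) ^ κ →
        GrowthAt a ((j : ℝ) / (Q : ℝ))) → ZeroFree a) ∧
    (∀ᶠ x in residual ℝ, ∀ (q : ℕ) [NeZero q] (χ : DirichletCharacter ℂ q) (s : ℂ),
      2 / 3 < s.re → s ≠ 1 → DirichletCharacter.LFunction χ s = 0 →
      ∀ b : ℝ, b < s.re → ∀ C : ℝ, ∃ᶠ R : ℕ in atTop, C * (R : ℝ) ^ b < ‖F R x‖) ∧
    (∀ U : Set ℝ, IsOpen U → U.Nonempty →
      List.TFAE [∀ x ∈ U, Saving x, Uniform, ∃ a : ℝ, a < 1 ∧ ZeroFree a]) ∧
    (Uniform ∨ ∀ᶠ x in residual ℝ, ¬ Saving x) := by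
  obtain ⟨h1, h2, h3, h4⟩ := Pool.Agent.T9h54.FF.Arc.topOf Pool.Agent.T9h73.FF.e1h Pool.Agent.T9h53.LZ.m2
  exact ⟨h1, fun _ _ hκ hκ1 ha1 ha2 h =>
    Pool.Agent.T9h54.FF.finC11 Pool.Agent.T9h73.FF.e1h hκ hκ1 ha1 ha2 h, h2, h3, h4⟩

end Pool.Agent.Results.MP_b6b996_nt.LocalPowerSaving
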