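import Pool.Agent.T9h59.RC.Fin

/-!
# MP_b6b996_nt: the Möbius exponential sum restricted to one residue class

`F_R(x) = ∑_{n ≤ R} μ(n) e(nx)`. The question is whether `F_R(x) = O(R^(1/2 + ε))` uniformly on the
circle. Here the sum is restricted to a single residue class `n ≡ a (mod m)` or, more generally,
it has a weight `w` modulo `m`, which may vanish at any set of classes. If `w` does not vanish at
all classes which contain squarefree numbers, then
the exponents of the sup norms of the sums with the coefficients `μ` and `w μ` are the same (above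
`1/2`), the sum with the coefficients `w μ` is not `O(√R)`, and the same holds on every arc of length
at least `s / m`, `s` the number of the residue classes at which `w` does not vanish; for one class
every arc of length `1 / m` is sufficient. The starting theorem `ShortArcs` is the case of the weights
which are nonzero at exactly the units of `ℤ / m`.

Method. It has to be shown that a bound for the sum over one class gives the same bound for all
other classes: one reduced class does not seem to contain any information about the others, since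
the exponential sum of `μ` over `n ≡ a (mod m)` is a linear combination of sums with characters.
If `q ≡ u (mod m)` is a prime, then `μ(q n) = -μ(n)` for `n` prime to `q`, and so the bound for
the class `u a` gives a bound for the numbers of the class `a` which are prime to `q`. This is used
for `k` different such primes, `u^(k+1) ≡ 1`; the remaining numbers `n` of the class `a`, those
divisible by all of the `k` primes, belong to the class `u^k · u a` of the cofactor, where the
assumption can be applied again. The bound on arcs uses the linear recurrence with the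
characteristic polynomial `∏ (X - e(a / m))`, `w(a) ≠ 0`, for the values at the points `x + j / m`.
-/

set_option autoImplicit false

open Filter Topology

namespace Pool.Agent.Results.MP_b6b996_nt.ResidueClasses

/-- The exponential sum `∑_{n=1}^R c(n) e^{2πinx}`. -/
noncomputable def S (c : ℕ → ℂ) (R : ℕ) (x : ℝ) : ℂ :=
  ∑ n ∈ Finset.Icc 1 R, c n * Complex.exp (2 * Real.pi * Complex.I * n * x)

/-- The Möbius function. -/
noncomputable def mu (n : ℕ) : ℂ := ((ArithmeticFunction.moebius n : ℤ) : ℂ)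

/-- The Liouville function `λ(n) = (-1)^Ω(n)`. -/
noncomputable def la (n : ℕ) : ℂ := ((ArithmeticFunction.liouville n : ℤ) : ℂ)

/-- The product of a weight modulo `m` and an arithmetic function. -/
noncomputable def wt {m : ℕ} (w : ZMod m → ℂ) (f : ℕ → ℂ) (n : ℕ) : ℂ := w (n : ZMod m) * f n

open Classical in
/-- The weight modulo `m` which is `1` at the class `a` and `0` at the other classes. -/
noncomputable def one (m : ℕ) (a : ZMod m) (u : ZMod m) : ℂ := if u = a then 1 else 0

/-- `∑_{n ≤ R} c(n) e(nx) = O(R^(a + ε))` for every `ε > 0`, uniformly in `x`. -/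
def Bound (c : ℕ → ℂ) (a : ℝ) : Prop := ∀ ε : ℝ, 0 < ε → ∃ C : ℝ, ∀ (R : ℕ) (x : ℝ),
  ‖S c R x‖ ≤ C * (R : ℝ) ^ (a + ε)

/-- `∑_{n ≤ R} c(n) e(nx) = O(R^(a + ε))` for every `ε > 0`, uniformly in `α ≤ x ≤ β`. -/
def ArcBound (c : ℕ → ℂ) (a α β : ℝ) : Prop := ∀ ε : ℝ, 0 < ε → ∃ C : ℝ, ∀ (R : ℕ),
  ∀ x ∈ Set.Icc α β, ‖S c R x‖ ≤ C * (R : ℝ) ^ (a + ε)

/-- **The Möbius exponential sum in residue classes.** Let `m ≥ 1`, let `w` be a weight modulo `m`,
let `s` be the number of the classes at which `w` does not vanish, and let `[α, β]` be an arc of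
length at least `s / m`.
(1) Let `w(n) ≠ 0` for some squarefree `n`. For every `C` there are arbitrarily large `R` and
points `x` of the arc with `|∑_{n ≤ R} w(n) μ(n) e(nx)| > C √R`. For every `b ≥ 1/2` the bounds
`O(R^(b + ε))` for the sums with the coefficients `μ`, `λ`, `w μ`, `w λ`, uniformly on the circle, and
for those with the coefficients `w μ`, `w λ` uniformly on the arc, are equivalent. For `b = 1/2`
the first one is Q1.
(2) For the Liouville function it is sufficient that `w ≠ 0`.
(3) The residue class `a` modulo `m` contains squarefree numbers if `gcd (a, m)` is squarefree, and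
so (1) holds for the sum over one such class and every arc of length `1 / m`. -/
theorem result :
    (∀ (m : ℕ) (w : ZMod m → ℂ) (α β : ℝ), 0 < m → (∃ n : ℕ, Squarefree n ∧ w (n : ZMod m) ≠ 0) →
      (({u : ZMod m | w u ≠ 0} : Set (ZMod m)).ncard : ℝ) ≤ m * (β - α) →
      (∀ C : ℝ, ∃ᶠ R : ℕ in atTop, ∃ x ∈ Set.Icc α β, C * Real.sqrt R < ‖S (wt w mu) R x‖) ∧
      ∀ b : ℝ, 1 / 2 ≤ b → List.TFAE [Bound mu b, Bound la b, Bound (wt w mu) b, Bound (wt w la) b,
        ArcBound (wt w mu) b α β, ArcBound (wt w la) b α β]) ∧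
    (∀ (m : ℕ) (w : ZMod m → ℂ) (α β : ℝ), 0 < m → w ≠ 0 →
      (({u : ZMod m | w u ≠ 0} : Set (ZMod m)).ncard : ℝ) ≤ m * (β - α) →
      ∀ b : ℝ, 1 / 2 ≤ b → (Bound (wt w la) b ↔ Bound mu b) ∧
        (ArcBound (wt w la) b α β ↔ Bound mu b)) ∧
    (∀ m a : ℕ, 0 < m → Squarefree (Nat.gcd a m) →
      (∃ n : ℕ, Squarefree n ∧ one m (a : ZMod m) (n : ZMod m) ≠ 0) ∧
      ∀ α β : ℝ, 1 ≤ m * (β - α) →
      (∀ C : ℝ, ∃ᶠ R : ℕ in atTop, ∃ x ∈ Set.Icc α β,
        C * Real.sqrt R < ‖S (wt (one m (a : ZMod m)) mu) R x‖) ∧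
      ∀ b : ℝ, 1 / 2 ≤ b → (ArcBound (wt (one m (a : ZMod m)) mu) b α β ↔ Bound mu b)) := by
  have hone : ∀ (m : ℕ) (a : ZMod m), one m a = Pool.Agent.T9h59.RC.ind m a := by
    intro m a
    funext u
    unfold one Pool.Agent.T9h59.RC.ind
    split_ifs <;> rfl
  have h12 : ∀ b : ℝ, 1 / 2 ≤ b → (Bound mu b ↔ Bound la b) := fun b hb =>
    (Pool.Agent.Y853.EM.tfae 1 one_ne_zero hb).out 0 3
  have hm3 : ∀ (m : ℕ) (w : ZMod m → ℂ), 0 < m → (∃ n : ℕ, Squarefree n ∧ w (n : ZMod m) ≠ 0) →
      ∀ b : ℝ, 1 / 2 ≤ b → (Bound (wt w mu) b ↔ Bound mu b) := fun m w hm hw b hb =>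
    forall₂_congr fun ε hε => Pool.Agent.T9h59.RC.UB_weight hm hw (by linarith)
  have hm4 : ∀ (m : ℕ) (w : ZMod m → ℂ), 0 < m → w ≠ 0 →
      ∀ b : ℝ, 1 / 2 ≤ b → (Bound (wt w la) b ↔ Bound la b) := fun m w hm hw b hb =>
    forall₂_congr fun ε hε => Pool.Agent.T9h59.RC.UB_weight_li hm hw (by linarith)
  have harc : ∀ (m : ℕ) (w : ZMod m → ℂ) (f : ℕ → ℂ) (α β : ℝ), 0 < m →
      (({u : ZMod m | w u ≠ 0} : Set (ZMod m)).ncard : ℝ) ≤ m * (β - α) →
      ∀ b : ℝ, (ArcBound (wt w f) b α β ↔ Bound (wt w f) b) := fun m w f α β hm hαβ b =>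
    forall₂_congr fun ε _ => Pool.Agent.T9h59.RC.bound_arc hm w f (b + ε) hαβ
  have hne : ∀ (m : ℕ) (w : ZMod m → ℂ), (∃ n : ℕ, Squarefree n ∧ w (n : ZMod m) ≠ 0) → w ≠ 0 := by
    rintro m w ⟨n, -, hn⟩ rfl
    exact hn rfl
  refine ⟨?_, ?_, ?_⟩
  · intro m w α β hm hw hαβ
    refine ⟨fun C => Pool.Agent.T9h59.RC.omega_w hm hw hαβ C, fun b hb => ?_⟩
    tfae_have 1 ↔ 2 := h12 b hb
    tfae_have 3 ↔ 1 := hm3 m w hm hw b hb
    tfae_have 4 ↔ 2 := hm4 m w hm (hne m w hw) b hb
    tfae_have 5 ↔ 3 := harc m w mu α β hm hαβ b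
    tfae_have 6 ↔ 4 := harc m w la α β hm hαβ b
    tfae_finish
  · intro m w α β hm hw hαβ b hb
    have h1 := (hm4 m w hm hw b hb).trans (h12 b hb).symm
    exact ⟨h1, (harc m w la α β hm hαβ b).trans h1⟩
  · intro m a hm ha
    rw [hone]
    have h0 := Pool.Agent.T9h59.RC.sqf_class hm ha
    refine ⟨h0, fun α β hαβ => ⟨fun C => Pool.Agent.T9h59.RC.omega_class hm ha hαβ C,
      fun b hb => ?_⟩⟩
    refine (harc m _ mu α β hm ?_ b).trans (hm3 m _ hm h0 b hb)
    rw [Pool.Agent.T9h59.RC.ind_support, Set.ncard_singleton, Nat.cast_one]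
    exact hαβ

end Pool.Agent.Results.MP_b6b996_nt.ResidueClasses
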