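import Pool.Agent.T9h54.MY.Finf

/-!
# MP_b6b996_nt: points at which the Möbius exponential sum is not `O(√R)`

The theorem in the starting file `SqrtBoundFails` gives, for every `C`, a fraction `x = x(C)` with
`limsup |F_R(x)| / √R > C`.  Here we get single points `x` with `limsup |F_R(x)| / √R = ∞`, already for the
cosine sums `Re F_R(x) = ∑ μ(n) cos(2πnx)`, and a local form with a positive proportion of the fractions:

1. let `p` be an odd prime, `U ⊆ ℝ` open and nonempty, `C` real; there are `κ > 0` and `l₀` such that for all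
   `l ≥ l₀`: if `∑_{n ≤ R} μ(n) χ(n) = O(√R)` for all even primitive characters `χ` modulo `p^(2l)` and modulo
   `p^(2l-1)`, then at least `κ p^(2l)` of the reduced fractions `a / p^(2l)` in `U` modulo `1` satisfy
   `|Re F_R(a / p^(2l))| > C √R` for arbitrarily large `R`;
2. either `limsup |Re F_R(x)| / √R = ∞` for all `x` outside of a meagre set, or for every odd prime `p` and all
   large `l` there is an even primitive `χ` modulo `p^(2l)` or `p^(2l-1)` with `∑_{n ≤ R} μ(n) χ(n) ≠ O(√R)`;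
3. unconditionally, there are infinitely many `x ∈ [0, 1)` with `limsup |Re F_R(x)| / √R = ∞`.

Idea of the proof of 1: as in `SqrtBoundFails`, but the Riesz product in `b` modulo `p^(2l)` is multiplied by
`cos(π (b²/q - x₀)) ^ (2K)`, restricted to the `b` for which `b²/q` is near to `x₀` and not one of the few bad
fractions.  Quadratic phases modulo `p^(2l)` are small, so the averages of the Kloosterman sums hardly change.
The integers `n` divisible by `p` are included: they give characters modulo `p^(2l-1)`, and the averages of the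
Kloosterman sums modulo `p^(2l-1)` are small because their frequencies are outside of the spectrum of the Riesz
product.  2 follows from 1 and the category theorem, and 3 from 2.

The analytic part is the library `Pool.Agent.Y821.ME` (helper821 and others).
-/

set_option autoImplicit false

open Filter

namespace Pool.Agent.Results.MP_b6b996_nt.UnboundedAtPoints

/-- the Möbius exponential sum `F_R(x) = ∑_{n=1}^R μ(n) e^{2πinx}` -/
noncomputable def F (R : ℕ) (x : ℝ) : ℂ :=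
  ∑ n ∈ Finset.Icc 1 R, ((ArithmeticFunction.moebius n : ℤ) : ℂ) *
    Complex.exp (2 * Real.pi * Complex.I * n * x)

/-- `limsup |Re F_R(x)| / √R = ∞`, where `Re F_R(x) = ∑_{n=1}^R μ(n) cos(2πnx)` -/
def Unbounded (x : ℝ) : Prop := ∀ K : ℝ, ∃ᶠ R : ℕ in atTop, K * Real.sqrt R < |(F R x).re|

/-- `∑_{n=1}^R μ(n) χ(n)` -/
noncomputable def M {q : ℕ} (χ : DirichletCharacter ℂ q) (R : ℕ) : ℂ :=
  ∑ n ∈ Finset.Icc 1 R, ((ArithmeticFunction.moebius n : ℤ) : ℂ) * χ n

/-- `M(χ, R) = O(√R)` for every even primitive character `χ` modulo `q` -/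
def SqrtBounds (q : ℕ) : Prop := ∀ χ : DirichletCharacter ℂ q, χ.IsPrimitive → χ.Even →
  ∃ B : ℝ, ∀ R : ℕ, ‖M χ R‖ ≤ B * Real.sqrt R

lemma F_eq : F = Pool.Agent.Y821.ME.F := rfl

lemma not_bad {q : ℕ} (h : SqrtBounds q) : ¬ Pool.Agent.T9h54.MY.BadE q := by
  rintro ⟨χ, h1, h2, h3⟩
  obtain ⟨B, hB⟩ := h χ h1 h2
  obtain ⟨R, hR⟩ := h3 B
  exact absurd (hB R) (not_le.mpr hR)

lemma bad_iff {q : ℕ} (h : Pool.Agent.T9h54.MY.BadE q) : ¬ SqrtBounds q := fun h' => not_bad h' h

/-- the local theorem, the dichotomy and the infinitely many points -/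
theorem result :
    (∀ p : ℕ, p.Prime → p ≠ 2 → ∀ C : ℝ, ∀ U : Set ℝ, IsOpen U → U.Nonempty →
      ∃ κ : ℝ, 0 < κ ∧ ∃ l₀ : ℕ, ∀ l : ℕ, l₀ ≤ l → SqrtBounds (p ^ (2 * l)) → SqrtBounds (p ^ (2 * l - 1)) →
        κ * (p : ℝ) ^ (2 * l) ≤ (Set.ncard {a : ℕ | a < p ^ (2 * l) ∧ a.Coprime p ∧
          (∃ n : ℤ, (a : ℝ) / (p : ℝ) ^ (2 * l) + n ∈ U) ∧
          ∃ᶠ R : ℕ in atTop, C * Real.sqrt R < |(F R ((a : ℝ) / (p : ℝ) ^ (2 * l))).re|} : ℝ)) ∧
    ({x : ℝ | Unbounded x} ∈ residual ℝ ∨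
      ∀ p : ℕ, p.Prime → p ≠ 2 → ∃ l₀ : ℕ, ∀ l : ℕ, l₀ ≤ l →
        ¬ SqrtBounds (p ^ (2 * l)) ∨ ¬ SqrtBounds (p ^ (2 * l - 1))) ∧
    {x : ℝ | 0 ≤ x ∧ x < 1 ∧ Unbounded x}.Infinite := by
  refine ⟨fun p hp hp2 C U hU hne => ?_, ?_, ?_⟩
  · obtain ⟨κ, hκ, l₀, h⟩ := Pool.Agent.T9h54.MY.local_fracF p hp hp2 C U hU hne
    exact ⟨κ, hκ, l₀, fun l hl h1 h2 => h l hl (not_bad h1) (not_bad h2)⟩
  · rcases Pool.Agent.T9h54.MY.dichotomy with h | h
    · exact Or.inl h
    · refine Or.inr fun p hp hp2 => ?_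
      obtain ⟨l₀, hl₀⟩ := h p hp hp2
      refine ⟨l₀, fun l hl => ?_⟩
      rcases hl₀ l hl with h1 | h1
      · exact Or.inl (bad_iff h1)
      · exact Or.inr (bad_iff h1)
  · exact Pool.Agent.T9h54.MY.infinite_unb

end Pool.Agent.Results.MP_b6b996_nt.UnboundedAtPoints
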